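import Pool.Agent.H1.Cvx

namespace Pool.Agent.Results.MP_6c0529_co.Counter

open SimpleGraph Pool.Agent.H1.Cvx

variable {m n : ℕ}

/-- A semilabeled binary tree of size `n`: `l` labels the leaves bijectively by `Fin n`. -/
def IsBT (G : SimpleGraph (Fin m)) (l : Fin n → Fin m) : Prop :=
  G.IsTree ∧ (∀ v, (G.neighborSet v).ncard = 1 ∨ (G.neighborSet v).ncard = 3) ∧
    Function.Injective l ∧ ∀ v, v ∈ Set.range l ↔ (G.neighborSet v).ncard = 1

/-- Deleting the leaves leaves a path. -/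
def IsCat (G : SimpleGraph (Fin m)) (l : Fin n → Fin m) : Prop :=
  ∃ k, Nonempty (G.induce (Set.range l)ᶜ ≃g pathGraph k)

/-- The partitions of the labels induced by deleting a set of edges. -/
def P (G : SimpleGraph (Fin m)) (l : Fin n → Fin m) : Set (Setoid (Fin n)) :=
  {R | ∃ s : Set (Sym2 (Fin m)), ∀ i j, R i j ↔ (G.deleteEdges s).Reachable (l i) (l j)}

noncomputable def s (n : ℕ) : ℕ :=
  sInf {x | ∃ (m m' : ℕ) (G : SimpleGraph (Fin m)) (G' : SimpleGraph (Fin m')) (l : Fin n → Fin m)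
    (l' : Fin n → Fin m'), IsBT G l ∧ IsBT G' l' ∧ x = (P G l ∩ P G' l').ncard}

noncomputable def c (n : ℕ) : ℕ :=
  sInf {x | ∃ (m m' : ℕ) (G : SimpleGraph (Fin m)) (G' : SimpleGraph (Fin m')) (l : Fin n → Fin m)
    (l' : Fin n → Fin m'), IsBT G l ∧ IsBT G' l' ∧ IsCat G l ∧ IsCat G' l' ∧
      x = (P G l ∩ P G' l').ncard}

def Conv (q : Fin n → ℕ) (R : Setoid (Fin n)) : Prop :=
  ∀ a b c, R a b → a ≠ b → (∃ d, c ≠ d ∧ R c d) → q a ≤ q c → q c ≤ q b → R a c

lemma mem {k : ℕ} {G : SimpleGraph (Fin m)} {l : Fin n → Fin m} {p : Fin k → Fin m}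
    {q : Fin n → Fin k} (g : Function.Injective (Sum.elim l p)) (a1 : ∀ i, G.Adj (l i) (p (q i)))
    (a2 : ∀ t u : Fin k, t.val + 1 = u → G.Adj (p t) (p u)) {R : Setoid (Fin n)}
    (h : Conv (fun i => q i) R) : R ∈ P G l := by
  let cov := fun v a b => v = l a ∨ v = l b ∨ ∃ t, v = p t ∧ q a ≤ t ∧ t ≤ q b
  have ll : ∀ {a b}, l a = l b → a = b := fun e => by simpa using @g (.inl _) (.inl _) e
  have pp : ∀ {a b}, p a = p b → a = b := fun e => by simpa using @g (.inr _) (.inr _) e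
  have lp : ∀ {a b}, l a ≠ p b := fun e => by simpa using @g (.inl _) (.inr _) e
  have c1 : ∀ {c a b}, cov (l c) a b → R a b → R c a := by
    rintro c a b (e | e | ⟨t, e, -⟩) r
    exacts [ll e ▸ R.refl _, ll e ▸ R.symm r, (lp e).elim]
  have c2 : ∀ {x a b a' b'}, cov x a b → cov x a' b' → a ≠ b → R a b → a' ≠ b' → R a' b' →
      R a a' := by
    rintro x a b a' b' (rfl | rfl | ⟨t, rfl, h1, h2⟩) k n r n' r'
    · exact c1 k r'
    · exact R.trans r (c1 k r')
    · obtain e | e | ⟨u, e, h3, h4⟩ := k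
      · exact (lp e.symm).elim
      · exact (lp e.symm).elim
      · obtain rfl := pp e
        rcases le_total (q a) (q a') with e | e
        · exact h a b a' r n ⟨_, n', r'⟩ e (h3.trans h2)
        · exact R.symm (h a' b' a r' n' ⟨_, n, r⟩ e (h1.trans h4))
  refine ⟨{e | ¬ ∃ a b, a ≠ b ∧ R a b ∧ ∀ v ∈ e, cov v a b}, ?_⟩
  set H := G.deleteEdges {e | ¬ ∃ a b, a ≠ b ∧ R a b ∧ ∀ v ∈ e, cov v a b}
  have ad : ∀ {x y}, H.Adj x y ↔ G.Adj x y ∧ ∃ a b, a ≠ b ∧ R a b ∧ cov x a b ∧ cov y a b := by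
    simp only [H, deleteEdges_adj, Set.mem_ofPred, not_not, Sym2.forall_mem_pair, implies_true]
  have f : ∀ i j, R i j → q i ≤ q j → H.Reachable (l i) (l j) := fun i j r e => by
    by_cases n : i = j
    · rw [n]
    have : ∀ t : ℕ, q i ≤ t → ∀ ht : t < k, t ≤ q j → H.Reachable (l i) (p ⟨t, ht⟩) := by
      intro t ht
      induction t, ht using Nat.le_induction with
      | base => exact fun _ _ => (ad.2 ⟨a1 i, i, j, n, r, .inl rfl,
          .inr (.inr ⟨_, rfl, le_rfl, e⟩)⟩).reachable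
      | succ t h1 ih => exact fun h2 h3 => (ih (by omega) (by omega)).trans (ad.2 ⟨a2 _ _ rfl,
          i, j, n, r, .inr (.inr ⟨_, rfl, h1, Nat.le_of_succ_le h3⟩),
          .inr (.inr ⟨_, rfl, Nat.le_succ_of_le h1, h3⟩)⟩).reachable
    exact (this _ e (q j).2 le_rfl).trans (ad.2 ⟨(a1 j).symm, i, j, n, r,
      .inr (.inr ⟨_, rfl, e, le_rfl⟩), .inr (.inl rfl)⟩).reachable
  refine fun i j => ⟨fun r => (le_total (q i) (q j)).elim (f i j r)
    fun e => (f j i (R.symm r) e).symm, fun r => ?_⟩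
  have : ∀ v, Relation.ReflTransGen H.Adj (l i) v →
      v = l i ∨ ∃ a b, a ≠ b ∧ R a b ∧ R i a ∧ cov v a b := fun v r => by
    induction r with
    | refl => exact .inl rfl
    | tail _ e ih =>
      obtain ⟨-, a, b, n, r, h1, h2⟩ := ad.1 e
      refine .inr ⟨a, b, n, r, ?_, h2⟩
      obtain rfl | ⟨a', b', n', r', h3, h4⟩ := ih
      exacts [c1 h1 r, R.trans h3 (c2 h4 h1 n' r' n r)]
  obtain e | ⟨a, b, -, r, h1, h2⟩ := this _ ((reachable_iff_reflTransGen _ _).1 r)
  exacts [ll e ▸ R.refl _, R.trans h1 (R.symm (c1 h2 r))]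

lemma cat {G : SimpleGraph (Fin m)} {l : Fin 7 → Fin m} (h : IsBT G l) (hc : IsCat G l) :
    ∃ σ : Equiv.Perm (Fin 7), ∀ R, Conv (fun i => qf 0 1 2 3 4 (σ i)) R → R ∈ P G l := by
  classical
  obtain ⟨k, ⟨e⟩⟩ := hc
  obtain ⟨t, d, inj, lf⟩ := h
  choose u hu using fun i => Set.ncard_eq_one.1 ((lf _).1 ⟨i, rfl⟩)
  have a0 : ∀ i v, G.Adj (l i) v ↔ v = u i := fun i v => by
    rw [← mem_neighborSet, hu]; rfl
  have nu : ∀ i, u i ∉ Set.range l := by
    rintro i ⟨j, e⟩
    have : ∀ v, Relation.ReflTransGen G.Adj (l i) v → v = l i ∨ v = l j := fun v r => by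
      induction r with
      | refl => exact .inl rfl
      | tail _ r ih =>
        obtain rfl | rfl := ih
        · exact .inr (((a0 _ _).1 r).trans e.symm)
        · exact .inl (((a0 _ _).1 r).trans ((a0 _ _).1 ((a0 _ _).2 e).symm).symm)
    obtain ⟨x, h1, h2⟩ : ∃ x, x ≠ i ∧ x ≠ j := (by decide : ∀ i j : Fin 7, ∃ x, x ≠ i ∧ x ≠ j) i j
    exact (this _ ((reachable_iff_reflTransGen _ _).1 (t.1 _ (l x)))).elim
      (fun e => h1 (inj e)) fun e => h2 (inj e)
  let p := fun t => (e.symm t).val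
  let q := fun i => e ⟨u i, nu i⟩
  have g : Function.Injective (Sum.elim l p) := inj.sumElim
    (Subtype.val_injective.comp e.symm.injective) fun a b e' => (e.symm b).2 ⟨a, e'⟩
  have a1 : ∀ i, G.Adj (l i) (p (q i)) := fun i => (a0 _ _).2 (by simp [p, q])
  have a2 : ∀ t u : Fin k, t.val + 1 = u → G.Adj (p t) (p u) := fun t u h =>
    e.symm.map_rel_iff.2 (pathGraph_adj.2 (.inl h))
  have d4 : ∀ v (L : List (Fin 7 ⊕ Fin k)), L.Nodup → L.length = 4 →
      ¬ ∀ x ∈ L, G.Adj v (Sum.elim l p x) := fun v L h1 h2 h3 => by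
    have := Set.ncard_le_ncard (s := (L.toFinset.image (Sum.elim l p) : Set _))
      (t := G.neighborSet v) (by
        rw [Finset.coe_image]; rintro _ ⟨x, hx, rfl⟩; exact h3 x (List.mem_toFinset.1 hx))
    rw [Set.ncard_coe_finset, Finset.card_image_of_injective _ g,
      List.toFinset_card_of_nodup h1] at this
    rcases d v with e | e <;> omega
  let σ := Tuple.sort q
  have mono : Monotone (q ∘ σ) := Tuple.monotone_sort q
  have st : ∀ a b c d : Fin 7, a < b → b < c → c < d → q (σ b) < q (σ c) := by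
    intro a b c d h1 h2 h3
    refine (mono h2.le).lt_of_ne fun e => ?_
    have e : q (σ b) = q (σ c) := e
    obtain ⟨x, x1, x2⟩ : ∃ x, G.Adj (p (q (σ b))) (Sum.elim l p x) ∧
        (x = .inl (σ a) ∨ ∃ t, t < q (σ b) ∧ x = .inr t) := by
      obtain e | e := (show q (σ a) ≤ q (σ b) from mono h1.le).eq_or_lt
      · exact ⟨_, e ▸ (a1 _).symm, .inl rfl⟩
      · have : (q (σ a)).val < q (σ b) := e
        exact ⟨.inr ⟨q (σ b) - 1, by omega⟩, (a2 _ _ (by simp; omega)).symm,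
          .inr ⟨_, by rw [Fin.lt_def]; simp; omega, rfl⟩⟩
    obtain ⟨y, y1, y2⟩ : ∃ x, G.Adj (p (q (σ b))) (Sum.elim l p x) ∧
        (x = .inl (σ d) ∨ ∃ t, q (σ b) < t ∧ x = .inr t) := by
      obtain e | e := (show q (σ b) ≤ q (σ d) from mono (h2.trans h3).le).eq_or_lt
      · exact ⟨_, e ▸ (a1 _).symm, .inl rfl⟩
      · have : (q (σ b)).val < q (σ d) := e
        exact ⟨.inr ⟨q (σ b) + 1, by omega⟩, a2 _ _ rfl,
          .inr ⟨_, by rw [Fin.lt_def]; simp, rfl⟩⟩
    refine d4 (p (q (σ b))) [.inl (σ b), .inl (σ c), x, y] ?_ rfl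
      (by simpa [x1, y1, (a1 _).symm] using e ▸ (a1 (σ c)).symm)
    rcases x2 with rfl | ⟨t, _, rfl⟩ <;> rcases y2 with rfl | ⟨t', _, rfl⟩ <;> simp <;> omega
  refine ⟨σ.symm, fun R h => mem g a1 a2 fun a b c r n n' h1 h2 => h a b c r n n' ?_ ?_⟩ <;>
  · have : ∀ a b, (q a).val ≤ q b → qf 0 1 2 3 4 (σ.symm a) ≤ qf 0 1 2 3 4 (σ.symm b) := by
      intro a b h
      obtain ⟨a, rfl⟩ := σ.surjective a
      obtain ⟨b, rfl⟩ := σ.surjective b
      by_contra l
      have k : ∀ a b : Fin 7, ¬ qf 0 1 2 3 4 a ≤ qf 0 1 2 3 4 b → ∃ x y : Fin 7, 0 < x ∧ b ≤ x ∧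
        x < y ∧ y ≤ a ∧ y < 6 := by decide
      obtain ⟨x, y, h1, h2, h3, h4, h5⟩ := k a b (by simpa using l)
      exact (((mono h2).trans_lt (st 0 x y 6 h1 h3 h5)).trans_le (mono h4)).not_ge h
    exact this _ _ ‹_›

lemma conv (q : ℕ → ℕ) (cl : List (List ℕ)) (h : chk q cl) (σ : Equiv.Perm (Fin 7)) :
    Conv (fun i => q (σ i)) (Setoid.ker fun i => lab cl (σ i)) := by
  have k : ∀ a, a ∈ lab cl a ∧ (lab cl a ∈ cl ∨ lab cl a = [a]) := fun a => by
    unfold lab
    cases e : cl.find? (·.contains a) with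
    | none => simp
    | some A => exact ⟨by simpa using List.find?_some e, .inl (List.mem_of_find?_eq_some e)⟩
  have k' : ∀ a b, a ≠ b → lab cl (σ a) = lab cl (σ b) → lab cl (σ a) ∈ cl := fun a b n e =>
    (k _).2.resolve_right fun e' => n (σ.injective (Fin.ext (by simpa [← e, e'] using (k (σ b)).1))).symm
  rintro a b c r n ⟨d, n', r'⟩ h1 h2
  refine (chk_sep q cl h _ (k' a b n r) _ (k' c d n' r')).resolve_right fun e => ?_
  simp only [sep, List.all_eq_true] at e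
  have := e _ (k _).1 _ ((show lab cl (σ a) = lab cl (σ b) from r) ▸ (k (σ b)).1) _ (k (σ c)).1
  rw [Nat.ble_eq_true_of_le h1, Nat.ble_eq_true_of_le h2] at this
  cases this

lemma low {m' : ℕ} {G : SimpleGraph (Fin m)} {G' : SimpleGraph (Fin m')} {l : Fin 7 → Fin m}
    {l' : Fin 7 → Fin m'} (h : IsBT G l) (h' : IsBT G' l') (hc : IsCat G l) (hc' : IsCat G' l') :
    126 ≤ (P G l ∩ P G' l').ncard := by
  classical
  obtain ⟨σ, hσ⟩ := cat h hc
  obtain ⟨τ, hτ⟩ := cat h' hc'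
  let ρ := τ.symm.trans σ
  let q := qf (ρ 0) (ρ 1) (ρ 2) (ρ 3) (ρ 4)
  have e : ∀ i, qf 0 1 2 3 4 (τ i) = q (σ i) := fun i => by
    obtain ⟨i, rfl⟩ := τ.symm.surjective i
    have : ∀ j, (σ (τ.symm i)).val.beq (ρ j) = i.val.beq j := fun j => by
      rw [Bool.eq_iff_iff]; simp [ρ, Fin.val_inj]
    simp only [q, qf, this, Equiv.apply_symm_apply]
    rfl
  have c5 : 5 ≤ W1.countP (chk q) := by
    rcases lt_or_gt_of_ne (ρ.injective.ne (show (0 : Fin 7) ≠ 1 by decide)) with h | h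
    · exact main _ _ _ _ _ h (by simp [ρ.injective.eq_iff])
    · rw [show q = qf (ρ 1) (ρ 0) (ρ 2) (ρ 3) (ρ 4) by ext; simp only [q, qf, Bool.or_comm]]
      exact main _ _ _ _ _ h (by simp [ρ.injective.eq_iff])
  have z : ∀ q, ∀ cl ∈ W0, chk q cl := fun q cl h => by
    match cl, w0.2.2 cl h with
    | [], _ => rfl
    | [_], _ => rfl
  let M := (W0 ++ W1.filter (chk q)).map fun cl => Setoid.ker fun i => lab cl (σ i)
  have nd : M.Nodup := by
    refine (List.Nodup.of_map _ (pw.sublist ((List.filter_sublist.append_left _).map _))).map_on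
      fun x hx y hy e => List.inj_on_of_nodup_map pw ((List.filter_sublist.append_left _).subset hx)
        ((List.filter_sublist.append_left _).subset hy) ?_
    have : ∀ a b : Fin 7, lab x a = lab x b ↔ lab y a = lab y b := fun a b => by
      simpa [Setoid.ker_def] using Setoid.ext_iff.1 e (σ.symm a) (σ.symm b)
    simp only [code, this]
  have : Finite (Setoid (Fin 7)) := .of_injective (fun R : Setoid _ => R.r) fun _ _ e =>
    Setoid.ext fun a b => iff_of_eq (congrFun₂ e a b)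
  refine le_trans ?_ (Set.ncard_le_ncard (s := M.toFinset) fun R hR => ?_)
  · rw [Set.ncard_coe_finset, List.toFinset_card_of_nodup nd, List.length_map, List.length_append,
      w0.2.1, ← List.countP_eq_length_filter]
    omega
  · obtain ⟨cl, h, rfl⟩ := List.mem_map.1 (List.mem_toFinset.1 hR)
    rw [List.mem_append, List.mem_filter] at h
    refine ⟨hσ _ (conv _ _ (h.elim (z _ _) fun h => List.all_eq_true.1 w0.1 _ h.1) σ), hτ _ ?_⟩
    simp only [e]
    exact conv _ _ (h.elim (z _ _) And.right) σ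

lemma sepa {G H : SimpleGraph (Fin m)} (h : H ≤ G) (κ : Fin m → ℕ) (v : Fin m)
    (hκ : ∀ x y, G.Adj x y → x ≠ v → y ≠ v → κ x = κ y) {a b : Fin m} (r : H.Reachable a b) :
    κ a ≠ κ b → H.Reachable a v := by
  obtain ⟨p⟩ := r
  induction p with
  | nil => simp
  | @cons a x b e p ih =>
    intro n
    by_cases h1 : a = v
    · rw [h1]
    by_cases h2 : x = v
    · exact h2 ▸ e.reachable
    · exact e.reachable.trans (ih (hκ a x (h e) h1 h2 ▸ n))

def gr (E : List (ℕ × ℕ)) : SimpleGraph (Fin 12) := fromRel fun a b => (a.val, b.val) ∈ E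

instance (E : List (ℕ × ℕ)) : DecidableRel (gr E).Adj := fun a b => by
  unfold gr; infer_instance

def lv (i : Fin 7) : Fin 12 := i.castLE (by omega)

def T := gr [(0, 7), (1, 7), (2, 8), (3, 9), (4, 10), (5, 11), (6, 11), (8, 7), (9, 8), (10, 9),
  (11, 10)]

def F := gr [(8, 7), (9, 7), (10, 7), (11, 10), (1, 8), (4, 8), (2, 9), (5, 9), (3, 10), (0, 11),
  (6, 11)]

lemma bt (E : List (ℕ × ℕ)) (h1 : ∀ v : Fin 12, v = 7 ∨ ∃ w, (gr E).Adj v w ∧
      (w.val + 5) % 12 + 12 * (12 - w.val) / 72 < (v.val + 5) % 12 + 12 * (12 - v.val) / 72)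
    (h2 : (gr E).edgeFinset.card = 11)
    (h3 : ∀ v : Fin 12, (gr E).degree v = if v.val < 7 then 1 else 3) : IsBT (gr E) lv := by
  have d : ∀ v, ((gr E).neighborSet v).ncard = if v.val < 7 then 1 else 3 := fun v => by
    rw [← h3, ← card_neighborSet_eq_degree, Set.ncard_eq_toFinset_card', Set.toFinset_card]
  refine ⟨isTree_iff_connected_and_card.2 ⟨?_, by
    rw [Nat.card_eq_fintype_card, ← edgeFinset_card, h2]; simp⟩, fun v => by
    rw [d]; split_ifs <;> simp, by decide, fun v => by rw [d]; revert v; decide⟩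
  have : ∀ k, ∀ v : Fin 12, (v.val + 5) % 12 + 12 * (12 - v.val) / 72 < k →
      (gr E).Reachable v 7 := fun k => by
    induction k with
    | zero => simp
    | succ k ih =>
      intro v h
      obtain rfl | ⟨w, a, b⟩ := h1 v
      exacts [.rfl, a.reachable.trans (ih w (by omega))]
  exact ⟨fun a b => (this _ a (Nat.lt_succ_self _)).trans (this _ b (Nat.lt_succ_self _)).symm⟩

lemma upp : (P T lv ∩ P F lv).ncard ≤ 125 := by
  classical
  let r := fun (R : Setoid (Fin 7)) a => (Finset.univ.filter (R a)).min' ⟨a, by simp⟩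
  have r1 : ∀ (R : Setoid _) a, R a (r R a) := fun R a => (Finset.mem_filter.1 (Finset.min'_mem _ _)).2
  have r2 : ∀ R a, r R a ≤ a := fun R a => Finset.min'_le _ _ (by simp)
  have r3 : ∀ (R : Setoid _) a b, R a b ↔ r R a = r R b := fun R a b => ⟨fun h => by
    simp only [r]; congr 2; ext x; exact ⟨R.trans (R.symm h), R.trans h⟩,
    fun h => R.trans (r1 R a) (h ▸ R.symm (r1 R b))⟩
  refine (Set.ncard_le_ncard_of_injOn (t := (allF.filter good).toFinset)
    (fun R => List.ofFn fun a => (r R a).val) ?_ fun R _ S _ e => ?_).trans ?_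
  · rintro R ⟨⟨s, hs⟩, s', hs'⟩
    have g : ∀ a : Fin 7, (List.ofFn fun a => (r R a).val).getD a 0 = r R a := fun a => by
      fin_cases a <;> rfl
    have k : ∀ k ∈ KK, ∃ v, (∀ x y, T.Adj x y → x ≠ v → y ≠ v → k.getD x 0 = k.getD y 0) ∨
        ∀ x y, F.Adj x y → x ≠ v → y ≠ v → k.getD x 0 = k.getD y 0 := by
      unfold T F; decide +kernel
    simp only [List.coe_toFinset, List.mem_filter, Set.mem_ofPred, good, Bool.and_eq_true,
      List.all_eq_true, List.mem_range, Bool.or_eq_true, Nat.beq_eq, or_iff_not_imp_left]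
    refine ⟨?_, fun a ha => ?_, fun κ hκ a ha h1 c hc h2 => ?_⟩
    · have := fun a => Fin.le_def.1 (r2 R a)
      simp only [allF, List.ofFn_succ, List.ofFn_zero, List.mem_flatMap, List.mem_map,
        List.mem_range]
      exact ⟨_, Nat.lt_succ_of_le (this 1), _, Nat.lt_succ_of_le (this 2), _,
        Nat.lt_succ_of_le (this 3), _, Nat.lt_succ_of_le (this 4), _, Nat.lt_succ_of_le (this 5), _,
        Nat.lt_succ_of_le (this 6), by rw [Nat.le_zero.1 (this 0)]; rfl⟩
    · rw [g ⟨a, ha⟩, g, ← (r3 R _ _).1 (r1 R _)]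
    · rw [g ⟨a, ha⟩] at h1 ⊢
      rw [g ⟨c, hc⟩] at h2 ⊢
      refine congrArg _ ((r3 R _ _).1 ?_)
      obtain ⟨v, h | h⟩ := k κ hκ
      · exact (hs _ _).2 ((sepa (deleteEdges_le s) _ v h ((hs _ _).1 (r1 R ⟨a, ha⟩)) h1).trans
          (sepa (deleteEdges_le s) _ v h ((hs _ _).1 (r1 R ⟨c, hc⟩)) h2).symm)
      · exact (hs' _ _).2 ((sepa (deleteEdges_le s') _ v h ((hs' _ _).1 (r1 R ⟨a, ha⟩)) h1).trans
          (sepa (deleteEdges_le s') _ v h ((hs' _ _).1 (r1 R ⟨c, hc⟩)) h2).symm)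
  · have := fun a => Fin.ext (congrFun (List.ofFn_injective e) a)
    exact Setoid.ext fun a b => by rw [r3, r3, this, this]
  · rw [Set.ncard_coe_finset, ← up]
    exact List.toFinset_card_le _

theorem result : s 7 ≤ 125 ∧ 126 ≤ c 7 := by
  have t : IsBT T lv := bt _ (by decide) (by decide +kernel) (by decide +kernel)
  have f : IsBT F lv := bt _ (by decide) (by decide +kernel) (by decide +kernel)
  have k : IsCat T lv := ⟨5, ⟨⟨⟨fun x => ⟨x.1.val - 7, by omega⟩,
    fun x => ⟨⟨x.val + 7, by omega⟩, by revert x; decide⟩, fun x => by revert x; decide,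
    by decide⟩, fun {a b} => by rw [pathGraph_adj]; revert a b; unfold T; decide⟩⟩⟩
  refine ⟨le_trans (Nat.sInf_le (m := (P T lv ∩ P F lv).ncard) ⟨_, _, _, _, _, _, t, f, rfl⟩) upp,
    le_csInf ⟨_, _, _, _, _, _, _, t, t, k, k, rfl⟩ ?_⟩
  rintro _ ⟨m, m', G, G', l, l', h, h', hc, hc', rfl⟩
  exact low h h' hc hc'

end Pool.Agent.Results.MP_6c0529_co.Counter
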